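import Pool.Agent.Helper61.Lac.LC8
import Pool.Agent.Helper61.Lac.LC9
import Pool.Agent.Helper61.Lac.LC11b

/-!
# MP_78803a_an, Q1, `l = 1`: property (V) fails for every `α₀` in `[0, 1]`

For every `α₀ ∈ [0, 1]` there is an admissible function `f` (analytic and zero-free in the disc) with
`α(f) = α₀` such that the admissible linear differential polynomial `Ψ = f'` of order one is not
constant and does not have property (V): `f'` omits the value `1`.

Construction. Let `ξ' = e^k` be zero-free and `Y = C + ∫ e^ξ` zero-free and bounded, `f = Y e^(-ξ)`.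
Then `f' - 1 = -ξ' f` is zero-free and `T(r,f)` is the mean of `(Re ξ)⁺` up to `O(1)`. The function
`ξ` is a limit of `ξ_n` with `ξ_n' = e^(k_n)`, `k_n` polynomials; with `q = z^N`, `N` about
`e^Λ/(4 κ Λ²)`, one step replaces `e^k` by `E (1 - r p)^(-2)`, where
`E = exp(k - 2 ϱ q λ/(1 - ϱ q)) (1 - ϱ q)^(-2)`, `λ = Λ - Re k` on the circle, and
`p = -(∫ (E - e^k))/(2δ)` has modulus at most `1`, and close to `1` on most of the circle; the step adds
`-2δ p/(1 - r p)` to `ξ` up to a small error, and this has real part about `δ ≈ κ Λ` on most of the circle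
of radius `1 - e^(-Λ)`.
-/

set_option autoImplicit false

open Pool.Agent.Helper61.Nev

namespace Pool.Agent.Results.MP_78803a_an.FirstOrderFails

/-- For `l = 1` and every `α₀ ∈ [0, 1]` the statement of Q1 is false. -/
theorem result (α₀ : ℝ) (h0 : 0 ≤ α₀) (h1 : α₀ ≤ 1) : ¬ Holds 1 (α₀ : EReal) :=
  Pool.Agent.Helper61.Lac.not_holds_one_of
    (Pool.Agent.Helper61.Lac.LC10.limit_of_step
      (Pool.Agent.Helper61.Lac.step_of_core Pool.Agent.Helper61.Lac.core)) α₀ h0 h1

end Pool.Agent.Results.MP_78803a_an.FirstOrderFails
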