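import Pool.Agent.Helper61.Nev.Main3

/-!
# MP_78803a_an, Q1: property (V) holds above `l + 1`

For every `l ≥ 1` and every `α₀ > l + 1`, every non-constant admissible linear differential
polynomial of order `l` in an admissible `f` with `α(f) = α₀` takes every nonzero value infinitely
often in the unit disc.  So the threshold `c` of the question satisfies `c ≤ l + 1` (the bound known
before is `l (l + 1) / 2 + 1`).

Sketch. With `L = log 1/(1-r)`: `T(r,f) = m(r,1/f) + O(1) ≤ m(r,Ψ/f) + m(r,1/Ψ) + O(1)`. The `p`-th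
moments, `p < 1`, of logarithmic derivatives give `m(r,F'/F) ≤ (1+ε) L + O(1)`, and since
`log⁺|f^(ν)/f|` is at most the sum over `j < l` of `log⁺|f^(j+1)/f^(j)|` for all `ν ≤ l` at once,
`m(r,Ψ/f) ≤ l (1+ε) L + o(T)`. If `Ψ = w` has finitely many solutions, then Jensen's formula for
`Q = Ψ'/(Ψ-w)` and `1/Ψ = (Q - Ψ'/Ψ)/(w Q)` give `m(r,1/Ψ) ≤ (1+ε) L + o(T)`.
-/

set_option autoImplicit false

open Pool.Agent.Helper61.Nev

namespace Pool.Agent.Results.MP_78803a_an.ThresholdUpper

/-- For `l ≥ 1`, property (V) holds for all non-constant admissible linear differential polynomials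
of order `l` in admissible `f` with `α(f) = α₀`, whenever `α₀ > l + 1`. -/
theorem result (l : ℕ) (_hl : 1 ≤ l) (α₀ : EReal) (h : ((l + 1 : ℝ) : EReal) < α₀) :
    Holds l α₀ := by
  intro f hf hα a ha hΨ w hw
  by_contra hfin
  rw [Set.not_infinite] at hfin
  have h1 := alpha_le_of_finite hf ha hΨ hw hfin
  rw [hα] at h1
  exact absurd h (not_lt.2 h1)

end Pool.Agent.Results.MP_78803a_an.ThresholdUpper
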